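import Pool.Agent.Helper66.KF.Linear

/-!
# Signs for real matrices with bounded columns, in any dimension
-/

namespace Pool.Agent.Results.MP_e8ee11_co.KomlosTheorem

/-- There is an absolute constant `C` such that, for every real `m × n` matrix `A` whose columns
have sums of squares at most `t` and every `z ∈ [-1,1]^n`, some signs `χ` satisfy
`|∑ i, A j i * (χ i - z i)| ≤ C * √t` for every row `j`. -/
theorem result :
    ∃ C : ℝ, 0 < C ∧ ∀ (n m : ℕ) (A : Fin m → Fin n → ℝ) (t : ℝ), 0 ≤ t →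
      (∀ i, ∑ j, A j i ^ 2 ≤ t) → ∀ z : Fin n → ℝ, (∀ i, |z i| ≤ 1) →
        ∃ χ : Fin n → ℤ, (∀ i, χ i = 1 ∨ χ i = -1) ∧
          ∀ j, |∑ i, A j i * ((χ i : ℝ) - z i)| ≤ C * Real.sqrt t :=
  Pool.Agent.Helper66.KF.komlos_linear

end Pool.Agent.Results.MP_e8ee11_co.KomlosTheorem
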